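import Pool.Agent.V11288.LZ.Theta

/-!
# Beilinson's equivariant conjecture for `K_{2k-1}` as rationality of limits of sums over primes

Let `L/K` be an abelian extension of number fields with group `G`, `k > 1`, and `L^*(1-k) ∈ ℝ[G]` the element
with `χ(L^*(1-k)) = L^*(χ⁻¹, 1-k)`.  Choose a `ℚ[G]`-basis of `det H` and of `det B_L^+` (modules of rank one over
the semisimple ring `ℚ[G]`); under Borel's isomorphism they differ by a unit `ρ` of `ℝ[G]`, and the equality of Q1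
says that `L^*(1-k) = ρ y` for some `y ∈ ℚ[G]`.  The Euler factors at the ramified primes change `L^*(1-k)` only
by a unit of `ℚ[G]`; so we take the `L`-functions without the factors at a finite set `S` of primes containing
the ramified ones.

Let `γ > π/2`, and for a character `χ` and `X > 1`, with `u = n log Nv / log X`,

`W_χ(X) = ∑_{v ∉ S} ∑_{n ≥ 1} χ(σ_v)^n Nv^{n(k-1)} / n · e^{iγu} / Γ(1 + u)`

(`σ_v` the Frobenius), `Λ_γ = ∫_0^∞ (e^{-t} - e^{iγt}/Γ(1+t)) dt/t`, `r_χ` the order of `L(χ⁻¹, s)` at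
`s = 1 - k` (known from the signature), and for `g ∈ G`

`E_g(X) = |G|⁻¹ ∑_χ χ(g)⁻¹ (log X)^{r_χ} e^{-r_χ Λ_γ} exp W_{χ⁻¹}(X) / χ(ρ)`.

Then:

1. `E_g(X) = e_g + O(1/log X)` for `X → ∞`, where `L^*(1-k) = ρ ∑_g e_g g`;

2. `L^*(1-k) = ρ y` for some `y ∈ ℚ[G]` (the equality of Q1) if and only if all the limits
   `lim_{X → ∞} E_g(X)`, `g ∈ G`, are rational numbers.

The sums `W_χ(X)` converge absolutely; the point `s = 1 - k` is far away from the domain of convergence of the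
Euler products.  No hypothesis on the zeros of the `L`-functions is used.

Proof.  `Pool.Agent.V11288.LZ` (the law of rotated Mittag-Leffler sums at all real points), applied to each
character, and duality for finite abelian groups.
-/

set_option autoImplicit false

namespace Pool.Agent.Results.MP_a93ca1_nt.RationalLimits

open Filter Topology Set NumberField IsDedekindDomain

variable {K L : Type} [Field K] [NumberField K] [Field L] [NumberField L] [Algebra K L]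

/-- The norm of `v`. -/
noncomputable def nrm (v : HeightOneSpectrum (𝓞 K)) : ℕ := Ideal.absNorm v.asIdeal

/-- `g` is the Frobenius automorphism of a prime `Q` of `L` above `v`: `g(x) ≡ x^(N v)` modulo `Q`. -/
def IsFrobenius (v : HeightOneSpectrum (𝓞 K)) (g : L ≃ₐ[K] L) : Prop :=
  ∃ Q : Ideal (𝓞 L), Q.IsPrime ∧ Q.comap (algebraMap (𝓞 K) (𝓞 L)) = v.asIdeal ∧
    ∀ x y : 𝓞 L, (y : L) = g (x : L) → y - x ^ nrm v ∈ Q

/-- The primes outside `S` are unramified in `L` and `σ v` is the Frobenius automorphism for `v ∉ S`. -/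
structure IsData (S : Finset (HeightOneSpectrum (𝓞 K)))
    (σ : HeightOneSpectrum (𝓞 K) → (L ≃ₐ[K] L)) : Prop where
  unramified : ∀ v ∉ S, Squarefree (v.asIdeal.map (algebraMap (𝓞 K) (𝓞 L)))
  frobenius : ∀ v ∉ S, IsFrobenius v (σ v)

section group

variable {G : Type} [Group G]

/-- `Λ χ = L(χ, s)` (without the Euler factors at `S`) for all characters `χ` of `G`: it is the Euler product
for `Re s > 1`, and is meromorphic at the points of the real interval `[1 - k, 1]`. -/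
structure IsLSeries (S : Finset (HeightOneSpectrum (𝓞 K))) (σ : HeightOneSpectrum (𝓞 K) → G) (k : ℕ)
    (Λ : (G →* ℂˣ) → ℂ → ℂ) : Prop where
  mero : ∀ χ, ∀ x ∈ Icc (1 - (k : ℝ)) 1, MeromorphicAt (Λ χ) (x : ℂ)
  prod : ∀ χ, ∀ s : ℂ, 1 < s.re → Λ χ s =
    ∏' v : {v : HeightOneSpectrum (𝓞 K) // v ∉ S}, (1 - ((χ (σ v.1) : ℂˣ) : ℂ) * (nrm v.1 : ℂ) ^ (-s))⁻¹

/-- `B ≠ 0` is the leading coefficient of `Λ` at `1 - k`, where the order is `r`. -/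
def LeadingAt (k : ℕ) (Λ : ℂ → ℂ) (r : ℤ) (B : ℂ) : Prop :=
  B ≠ 0 ∧ Tendsto (fun s : ℂ => Λ s / (s - (1 - k)) ^ r) (𝓝[≠] (1 - (k : ℂ))) (𝓝 B)

/-- `χ(a) = ∑_g χ(g) a_g` for `a = ∑_g a_g g ∈ ℂ[G]`. -/
noncomputable def ev [Fintype G] (χ : G →* ℂˣ) (a : G → ℂ) : ℂ := ∑ g, ((χ g : ℂˣ) : ℂ) * a g

/-- `L^*(1-k) = ρ y`, where `r_χ` is the order of `L(χ⁻¹, s)` at `1 - k`: `L^*(χ⁻¹, 1-k) = χ(ρ) χ(y)` for all
characters `χ`. -/
def IsLeading [Fintype G] (k : ℕ) (Λ : (G →* ℂˣ) → ℂ → ℂ) (r : (G →* ℂˣ) → ℤ) (ρ y : G → ℂ) : Prop :=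
  ∀ χ, LeadingAt k (Λ χ⁻¹) (r χ) (ev χ ρ * ev χ y)

/-- The term of `W_χ(X)` at `(v, n)`. -/
noncomputable def term (σ : HeightOneSpectrum (𝓞 K) → G) (k : ℕ) (χ : G →* ℂˣ) (γ X : ℝ)
    (v : HeightOneSpectrum (𝓞 K)) (n : ℕ) : ℂ :=
  ((χ (σ v) : ℂˣ) : ℂ) ^ n * (nrm v : ℂ) ^ (n * ((k : ℤ) - 1)) / n *
    (Complex.exp ((γ * (n * Real.log (nrm v) / Real.log X) : ℝ) * Complex.I) /
      (Real.Gamma (1 + n * Real.log (nrm v) / Real.log X) : ℂ))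

/-- `W_χ(X)`, the sum over `v ∉ S` and `n ≥ 1` (here `n = x.2 + 1`). -/
noncomputable def W (S : Finset (HeightOneSpectrum (𝓞 K))) (σ : HeightOneSpectrum (𝓞 K) → G) (k : ℕ)
    (χ : G →* ℂˣ) (γ X : ℝ) : ℂ :=
  ∑' x : {v : HeightOneSpectrum (𝓞 K) // v ∉ S} × ℕ, term σ k χ γ X x.1.1 (x.2 + 1)

/-- `Λ_γ = ∫_0^∞ (e^{-t} - e^{iγt} / Γ(1 + t)) dt / t`. -/
noncomputable def Lam (γ : ℝ) : ℂ := ∫ t in Ioi (0 : ℝ),
  (Complex.exp (-(t : ℂ)) - Complex.exp ((γ * t : ℝ) * Complex.I) * ((Real.Gamma (1 + t))⁻¹ : ℝ)) / t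

/-- `E_g(X) = |G|⁻¹ ∑_χ χ(g)⁻¹ (log X)^{r_χ} e^{-r_χ Λ_γ} exp W_{χ⁻¹}(X) / χ(ρ)`. -/
noncomputable def E [Fintype G] (S : Finset (HeightOneSpectrum (𝓞 K)))
    (σ : HeightOneSpectrum (𝓞 K) → G) (k : ℕ) (r : (G →* ℂˣ) → ℤ) (ρ : G → ℂ) (γ : ℝ) (g : G)
    (X : ℝ) : ℂ :=
  (∑ᶠ χ : G →* ℂˣ, ((χ g⁻¹ : ℂˣ) : ℂ) * ((Real.log X : ℂ) ^ r χ * Complex.exp (-(r χ * Lam γ)) *
    Complex.exp (W S σ k χ⁻¹ γ X) / ev χ ρ)) / Nat.card G

end group

open Pool.Agent.V11288.LZ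

section proof

variable {G : Type} [CommGroup G]

theorem term_eq (σ : HeightOneSpectrum (𝓞 K) → G) (k : ℕ) (χ : G →* ℂˣ) (γ X : ℝ)
    (v : HeightOneSpectrum (𝓞 K)) (n : ℕ) :
    fterm σ (1 - (k : ℝ)) χ γ X v n = term σ k χ γ X v n := by
  have h0 : (((nrm v : ℕ) : ℝ)) ≠ 0 := by
    have h3 : 2 ≤ nrm v := Pool.Agent.H921R2.TatePole.two_le_nm v
    exact_mod_cast (by omega : nrm v ≠ 0)
  unfold fterm term wt
  have h1 : ((Ideal.absNorm v.asIdeal : ℝ) ^ (1 - (k : ℝ)) : ℝ) =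
      ((nrm v : ℕ) : ℝ) ^ (1 - (k : ℤ)) := by
    rw [← Real.rpow_intCast]
    push_cast
    rfl
  rw [h1]
  push_cast
  have h2 : ((nrm v : ℕ) : ℂ) ≠ 0 := by exact_mod_cast h0
  have h3 : (((nrm v : ℕ) : ℂ) ^ (1 - (k : ℤ))) ^ n * ((nrm v : ℕ) : ℂ) ^ (n * ((k : ℤ) - 1)) = 1 := by
    rw [← zpow_natCast, ← zpow_mul, ← zpow_add₀ h2]
    have : (1 - (k : ℤ)) * n + n * ((k : ℤ) - 1) = 0 := by ring
    rw [this, zpow_zero]
  have h4 : (((nrm v : ℕ) : ℂ) ^ (1 - (k : ℤ))) ^ n ≠ 0 := pow_ne_zero _ (zpow_ne_zero _ h2)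
  have h5 : ((nrm v : ℕ) : ℂ) ^ (n * ((k : ℤ) - 1)) = ((((nrm v : ℕ) : ℂ) ^ (1 - (k : ℤ))) ^ n)⁻¹ :=
    eq_inv_of_mul_eq_one_right h3
  rw [h5]
  simp only [nrm]
  rw [div_mul_eq_div_div, div_right_comm]
  rfl

theorem W_eq (S : Finset (HeightOneSpectrum (𝓞 K))) (σ : HeightOneSpectrum (𝓞 K) → G) (k : ℕ)
    (χ : G →* ℂˣ) (γ X : ℝ) : fW {v | v ∈ S} σ (1 - (k : ℝ)) χ γ X = W S σ k χ γ X :=
  tsum_congr fun x => term_eq σ k χ γ X x.1.1 (x.2 + 1)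

theorem main [Fintype G] (S : Finset (HeightOneSpectrum (𝓞 K))) (σ : HeightOneSpectrum (𝓞 K) → G)
    (k : ℕ) (Λ : (G →* ℂˣ) → ℂ → ℂ) (hΛ : IsLSeries S σ k Λ) (r : (G →* ℂˣ) → ℤ)
    (hr : ∀ χ, meromorphicOrderAt (Λ χ⁻¹) (1 - (k : ℂ)) = r χ) (ρ : G → ℂ) (hρ : ∀ χ, ev χ ρ ≠ 0)
    (γ : ℝ) (hγ : Real.pi / 2 < γ) :
    (∃ e : G → ℂ, IsLeading k Λ r ρ e ∧ ∀ g, (fun X : ℝ => E S σ k r ρ γ g X - e g) =O[atTop]
      (fun X : ℝ => 1 / Real.log X)) ∧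
    ((∃ y : G → ℚ, IsLeading k Λ r ρ fun g => (y g : ℂ)) ↔
      ∀ g, ∃ y : ℚ, Tendsto (E S σ k r ρ γ g) atTop (𝓝 (y : ℂ))) := by
  have : Fintype (G →* ℂˣ) := Fintype.ofFinite _
  have hev : ∀ (χ : G →* ℂˣ) (a : G → ℂ), ev χ a = dft a χ := by
    intro χ a
    unfold ev dft
    rw [finsum_eq_sum_of_fintype]
  have hs : ((1 - (k : ℝ) : ℝ) : ℂ) = 1 - (k : ℂ) := by push_cast; rfl
  have hm : ∀ χ : G →* ℂˣ, ∀ x ∈ Icc (1 - (k : ℝ)) (1 + 0), MeromorphicAt (Λ χ) (x : ℂ) :=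
    fun χ x hx => hΛ.mero χ x ⟨hx.1, by linarith [hx.2]⟩
  have hp : ∀ (χ : G →* ℂˣ) (s : ℂ), (1 : ℝ) + 0 < s.re → Λ χ s =
      ∏' v : {v : HeightOneSpectrum (𝓞 K) | v ∉ (S : Set (HeightOneSpectrum (𝓞 K)))},
        ((1 - (((Ideal.absNorm v.1.asIdeal : ℝ)) : ℂ) ^ (-s) •
          fmat (S : Set (HeightOneSpectrum (𝓞 K))) σ χ v).det)⁻¹ := by
    intro χ s hs
    rw [fprod, hΛ.prod χ s (by linarith)]
    rfl
  have law : ∀ χ, ∃ B : ℂ, LeadingAt k (Λ χ⁻¹) (r χ) B ∧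
      (fun X : ℝ => (Real.log X : ℂ) ^ r χ * Complex.exp (W S σ k χ⁻¹ γ X) -
        Complex.exp (r χ * Lam γ) * B) =O[atTop] (fun X : ℝ => 1 / Real.log X) := by
    intro χ
    obtain ⟨m, r₀, -, h1, h2, -, -⟩ := (eul_fr (S := (S : Set (HeightOneSpectrum (𝓞 K))))
      (fr := σ) χ⁻¹).exp_eq (1 - (k : ℝ)) (hm χ⁻¹) (hp χ⁻¹) hγ
    rw [hs, hr χ] at h1
    have hmr : r χ = m := by exact_mod_cast h1
    rw [← hmr] at h2
    refine ⟨Complex.exp r₀, ⟨Complex.exp_ne_zero _, by rw [hs] at h2; exact h2⟩, ?_⟩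
    have h3 := (eul_fr (S := (S : Set (HeightOneSpectrum (𝓞 K)))) (fr := σ) χ⁻¹).lead_rate
      (1 - (k : ℝ)) (hm χ⁻¹) (hp χ⁻¹) hγ h2
    simp only [fW_eq] at h3
    refine h3.congr_left fun X => ?_
    have h4 := W_eq S σ k χ⁻¹ γ X
    rw [← h4]
    rfl
  choose B hB hB2 using law
  set b : (G →* ℂˣ) → ℂ := fun χ => B χ / ev χ ρ with hb
  set e : G → ℂ := dftinv b with he
  have hlead : IsLeading k Λ r ρ e := by
    intro χ
    have h1 : ev χ ρ * ev χ e = B χ := by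
      rw [hev χ e, he, dft_dftinv, hb]
      exact mul_div_cancel₀ _ (hρ χ)
    rw [h1]
    exact hB χ
  have hrate : ∀ g, (fun X : ℝ => E S σ k r ρ γ g X - e g) =O[atTop] (fun X : ℝ => 1 / Real.log X) := by
    intro g
    have h1 : ∀ X : ℝ, E S σ k r ρ γ g X - e g = ∑ χ : G →* ℂˣ,
        (((χ g⁻¹ : ℂˣ) : ℂ) * Complex.exp (-(r χ * Lam γ)) / ev χ ρ / Nat.card G) *
          ((Real.log X : ℂ) ^ r χ * Complex.exp (W S σ k χ⁻¹ γ X) -
            Complex.exp (r χ * Lam γ) * B χ) := by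
      intro X
      rw [he]
      simp only [E, dftinv, finsum_eq_sum_of_fintype]
      simp only [Finset.sum_div]
      rw [← Finset.sum_sub_distrib]
      refine Finset.sum_congr rfl fun χ _ => ?_
      have h2 : Complex.exp (-(r χ * Lam γ)) * Complex.exp (r χ * Lam γ) = 1 := by
        rw [← Complex.exp_add, neg_add_cancel, Complex.exp_zero]
      rw [hb]
      linear_combination (((χ g⁻¹ : ℂˣ) : ℂ) / ev χ ρ / Nat.card G * B χ) * h2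
    refine Asymptotics.IsBigO.congr_left ?_ fun X => (h1 X).symm
    refine Asymptotics.IsBigO.fun_sum fun χ _ => ?_
    exact (hB2 χ).const_mul_left _
  have hlim : ∀ g, Tendsto (E S σ k r ρ γ g) atTop (𝓝 (e g)) := by
    intro g
    have h1 := (hrate g).trans_tendsto (tendsto_const_nhds.div_atTop Real.tendsto_log_atTop)
    simpa using h1.add_const (e g)
  refine ⟨⟨e, hlead, hrate⟩, fun h g => ?_, fun h => ?_⟩
  · obtain ⟨y, hy⟩ := h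
    have h1 : (fun g => (y g : ℂ)) = e := by
      rw [he, ← dftinv_dft (fun g => (y g : ℂ))]
      congr 1
      funext χ
      have h2 : ev χ ρ * ev χ (fun g => (y g : ℂ)) = B χ :=
        tendsto_nhds_unique (hy χ).2 (hB χ).2
      rw [← hev, hb]
      exact eq_div_of_mul_eq (hρ χ) (by rw [mul_comm]; exact h2)
    refine ⟨y g, ?_⟩
    rw [show (y g : ℂ) = e g from congrFun h1 g]
    exact hlim g
  · choose y hy using h
    refine ⟨y, ?_⟩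
    have h1 : (fun g => (y g : ℂ)) = e := funext fun g => tendsto_nhds_unique (hy g) (hlim g)
    rw [h1]
    exact hlead

end proof

/-- The commutative group structure of `Gal(L/K)`. -/
@[reducible] noncomputable def cgr (K L : Type) [Field K] [Field L] [Algebra K L]
    [IsAbelianGalois K L] : CommGroup (L ≃ₐ[K] L) :=
  { (inferInstance : Group (L ≃ₐ[K] L)) with mul_comm := fun a b => mul_comm' a b }

/-- **Beilinson's equivariant conjecture as rationality of limits.** -/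
theorem result [IsAbelianGalois K L] (S : Finset (HeightOneSpectrum (𝓞 K)))
    (σ : HeightOneSpectrum (𝓞 K) → (L ≃ₐ[K] L)) (_ : IsData S σ) (k : ℕ) (_ : 1 < k)
    (Λ : ((L ≃ₐ[K] L) →* ℂˣ) → ℂ → ℂ) (hΛ : IsLSeries S σ k Λ) (r : ((L ≃ₐ[K] L) →* ℂˣ) → ℤ)
    (hr : ∀ χ, meromorphicOrderAt (Λ χ⁻¹) (1 - (k : ℂ)) = r χ) (ρ : (L ≃ₐ[K] L) → ℂ)
    (hρ : ∀ χ, ev χ ρ ≠ 0) (γ : ℝ) (hγ : Real.pi / 2 < γ) :
    (∃ e : (L ≃ₐ[K] L) → ℂ, IsLeading k Λ r ρ e ∧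
      ∀ g, (fun X : ℝ => E S σ k r ρ γ g X - e g) =O[atTop] (fun X : ℝ => 1 / Real.log X)) ∧
    ((∃ y : (L ≃ₐ[K] L) → ℚ, IsLeading k Λ r ρ fun g => (y g : ℂ)) ↔
      ∀ g, ∃ y : ℚ, Tendsto (E S σ k r ρ γ g) atTop (𝓝 (y : ℂ))) :=
  @main K _ _ (L ≃ₐ[K] L) (cgr K L) _ S σ k Λ hΛ r hr ρ hρ γ hγ

end Pool.Agent.Results.MP_a93ca1_nt.RationalLimits
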